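import Mathlib

/-!
# MP_890457_co : faithful dimension and maximum degree
-/

open Finset

namespace Pool.Agent.Results.MP_890457_co.KThreeThree

open scoped RealInnerProductSpace

/-- `G` is isomorphic to an induced subgraph of the unit distance graph of `ℝ^d`. -/
def Faithful {V : Type} (G : SimpleGraph V) (d : ℕ) : Prop :=
  ∃ φ : V → EuclideanSpace ℝ (Fin d), Function.Injective φ ∧
    ∀ u v, u ≠ v → (dist (φ u) (φ v) = 1 ↔ G.Adj u v)

theorem indep {d : ℕ} {x u v : EuclideanSpace ℝ (Fin d)} (hu : u ≠ 0) (hv : v ≠ 0) (huv : u ≠ v)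
    (h0 : ‖x‖ = 1) (h1 : ‖x + u‖ = 1) (h2 : ‖x + v‖ = 1) : LinearIndependent ℝ ![u, v] := by
  rw [LinearIndependent.pair_iff' hu]
  intro c hc
  have e1 : ‖x + u‖ ^ 2 = ‖x‖ ^ 2 + 2 * ⟪x, u⟫ + ‖u‖ ^ 2 := norm_add_sq_real x u
  have e2 : ‖x + v‖ ^ 2 = ‖x‖ ^ 2 + 2 * ⟪x, v⟫ + ‖v‖ ^ 2 := norm_add_sq_real x v
  rw [h0, h1] at e1
  rw [h0, h2, ← hc, inner_smul_right, norm_smul, mul_pow, Real.norm_eq_abs, sq_abs] at e2
  have hu' : 0 < ‖u‖ ^ 2 := by positivity
  have e3 : c * (c - 1) * ‖u‖ ^ 2 = 0 := by linear_combination (-1) * e2 + c * e1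
  rcases mul_eq_zero.1 e3 with h | h
  · rcases mul_eq_zero.1 h with h | h
    · apply hv; rw [← hc, h, zero_smul]
    · apply huv
      have : c = 1 := by linarith
      rw [← hc, this, one_smul]
  · linarith

theorem no_embed {d : ℕ} (hd : d ≤ 3) (a b : Fin 3 → EuclideanSpace ℝ (Fin d))
    (ha : Function.Injective a) (hb : Function.Injective b)
    (h : ∀ i j, dist (a i) (b j) = 1) : False := by
  have hs : ∀ i j, ‖a i - b j‖ ^ 2 = 1 := fun i j => by rw [← dist_eq_norm, h]; norm_num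
  have hu : LinearIndependent ℝ ![a 1 - a 0, a 2 - a 0] := by
    apply indep (x := a 0 - b 0)
    · rw [sub_ne_zero]; exact fun hc => absurd (ha hc) (by decide)
    · rw [sub_ne_zero]; exact fun hc => absurd (ha hc) (by decide)
    · intro hc; exact absurd (ha (sub_left_injective hc)) (by decide)
    · rw [← dist_eq_norm, h]
    · rw [show a 0 - b 0 + (a 1 - a 0) = a 1 - b 0 by abel, ← dist_eq_norm, h]
    · rw [show a 0 - b 0 + (a 2 - a 0) = a 2 - b 0 by abel, ← dist_eq_norm, h]
  have hw : LinearIndependent ℝ ![b 1 - b 0, b 2 - b 0] := by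
    apply indep (x := b 0 - a 0)
    · rw [sub_ne_zero]; exact fun hc => absurd (hb hc) (by decide)
    · rw [sub_ne_zero]; exact fun hc => absurd (hb hc) (by decide)
    · intro hc; exact absurd (hb (sub_left_injective hc)) (by decide)
    · rw [← dist_eq_norm, dist_comm, h]
    · rw [show b 0 - a 0 + (b 1 - b 0) = b 1 - a 0 by abel, ← dist_eq_norm, dist_comm, h]
    · rw [show b 0 - a 0 + (b 2 - b 0) = b 2 - a 0 by abel, ← dist_eq_norm, dist_comm, h]
  have horth : ∀ i j, ⟪a i - a 0, b j - b 0⟫ = 0 := by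
    intro i j
    have e1 := hs i j
    have e2 := hs i 0
    have e3 := hs 0 j
    have e4 := hs 0 0
    rw [norm_sub_sq_real] at e1 e2 e3 e4
    rw [inner_sub_left, inner_sub_right, inner_sub_right]
    linarith
  set U := Submodule.span ℝ (Set.range ![a 1 - a 0, a 2 - a 0]) with hU
  set W := Submodule.span ℝ (Set.range ![b 1 - b 0, b 2 - b 0]) with hW
  have f1 : Module.finrank ℝ U = 2 := by
    rw [hU, finrank_span_eq_card hu]; simp
  have f2 : Module.finrank ℝ W = 2 := by
    rw [hW, finrank_span_eq_card hw]; simp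
  have hle : W ≤ Uᗮ := by
    rw [hW, Submodule.span_le]
    rintro w ⟨j, rfl⟩
    rw [SetLike.mem_coe, Submodule.mem_orthogonal]
    intro u hu'
    rw [hU] at hu'
    induction hu' using Submodule.span_induction with
    | mem x hx =>
      obtain ⟨i, rfl⟩ := hx
      fin_cases i <;> fin_cases j <;> simp [horth]
    | zero => simp
    | add x y _ _ hx hy => rw [inner_add_left, hx, hy, add_zero]
    | smul c x _ hx => rw [inner_smul_left, hx, mul_zero]
  have f3 := Submodule.finrank_mono hle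
  have f4 := Submodule.finrank_add_finrank_orthogonal U
  rw [finrank_euclideanSpace_fin] at f4
  omega

/-- `K_{3,3}` -/
def K33 : SimpleGraph (Fin 3 ⊕ Fin 3) where
  Adj u v := u.isLeft ≠ v.isLeft
  symm := ⟨fun _ _ h => Ne.symm h⟩
  loopless := ⟨fun _ h => h rfl⟩

instance : DecidableRel K33.Adj := fun u v => inferInstanceAs (Decidable (u.isLeft ≠ v.isLeft))

theorem K33_max : K33.maxDegree ≤ 3 := by
  apply SimpleGraph.maxDegree_le_of_forall_degree_le
  decide

/-- `K_{3,3}` has maximum degree `3` but is not an induced (nor any) subgraph of the unit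
distance graph of `ℝ^d` for any `d ≤ 3`. -/
theorem result : ¬ ∀ (V : Type) (_ : Fintype V) (G : SimpleGraph V) (_ : DecidableRel G.Adj),
    (∃ u v, G.Adj u v) → ∃ d, d ≤ G.maxDegree ∧ Faithful G d := by
  intro H
  obtain ⟨d, hd, φ, hinj, hφ⟩ := H (Fin 3 ⊕ Fin 3) inferInstance K33 inferInstance
    ⟨Sum.inl 0, Sum.inr 0, by decide⟩
  apply no_embed (hd.trans K33_max) (fun i => φ (Sum.inl i)) (fun j => φ (Sum.inr j))
  · intro i j h; exact Sum.inl_injective (hinj h)
  · intro i j h; exact Sum.inr_injective (hinj h)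
  · intro i j
    refine (hφ _ _ (by simp)).2 ?_
    change (Sum.inl i : Fin 3 ⊕ Fin 3).isLeft ≠ (Sum.inr j : Fin 3 ⊕ Fin 3).isLeft
    simp

end Pool.Agent.Results.MP_890457_co.KThreeThree
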